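import Pool.Agent.H174.GP.StB

set_option autoImplicit false

namespace Pool.Agent.H52.GP174

open Finset Pool.Agent.H174.GP

theorem bn_term (p θ : ℝ) (n k : ℕ) (hp0 : 0 ≤ p) (hp1 : p ≤ 1) (hk : k ≤ n) :
    bn n p k * Real.exp (θ * k) ≤ (p * Real.exp θ + (1 - p)) ^ n := by
  have h1 : 0 ≤ 1 - p := by linarith
  rw [add_pow]
  have h2 := Finset.single_le_sum (s := Finset.range (n + 1))
    (f := fun m => (p * Real.exp θ) ^ m * (1 - p) ^ (n - m) * (n.choose m : ℝ))
    (fun m _ => by positivity) (Finset.mem_range.2 (Nat.lt_succ_of_le hk))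
  refine le_trans (le_of_eq ?_) h2
  unfold bn
  have h3 : Real.exp (θ * k) = Real.exp θ ^ k := by
    rw [← Real.exp_nat_mul]
    ring_nf
  rw [h3, mul_pow]
  ring

theorem bn_exp (p θ : ℝ) (n k : ℕ) (hp0 : 0 ≤ p) (hp1 : p ≤ 1) (hk : k ≤ n) (hθ : |θ| ≤ 1) :
    bn n p k ≤ Real.exp (n * (p * (θ + θ ^ 2)) - θ * k) := by
  have h1 := bn_term p θ n k hp0 hp1 hk
  have h2 : p * Real.exp θ + (1 - p) ≤ Real.exp (p * (θ + θ ^ 2)) := by
    have h3 := (abs_le.1 (Real.abs_exp_sub_one_sub_id_le hθ)).2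
    have h4 : Real.exp θ ≤ 1 + (θ + θ ^ 2) := by linarith
    have h5 := mul_le_mul_of_nonneg_left h4 hp0
    have h6 := Real.add_one_le_exp (p * (θ + θ ^ 2))
    linarith
  have h7 : 0 ≤ p * Real.exp θ + (1 - p) := by
    have h8 : 0 ≤ 1 - p := by linarith
    positivity
  have h9 := pow_le_pow_left₀ h7 h2 n
  rw [← Real.exp_nat_mul] at h9
  have h10 := h1.trans h9
  rw [Real.exp_sub, le_div_iff₀ (Real.exp_pos _)]
  exact h10

theorem gp_bin3 : Pool.Agent.H174.GP.S_bin3 := by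
  intro p n k hp0 hp1 hn
  have hn0 : (0 : ℝ) < n := by exact_mod_cast hn
  by_cases hk : k ≤ n
  · have hkR : (k : ℝ) ≤ n := by exact_mod_cast hk
    have hk0 : (0 : ℝ) ≤ k := Nat.cast_nonneg k
    have hpn : 0 ≤ p * n := by positivity
    have hpn1 : p * n ≤ n := by nlinarith
    have hθ : |((k : ℝ) - p * n) / (2 * n)| ≤ 1 := by
      rw [abs_div, abs_of_pos (by positivity : (0 : ℝ) < 2 * n), div_le_one (by positivity), abs_le]
      constructor <;> linarith
    refine (bn_exp p (((k : ℝ) - p * n) / (2 * n)) n k hp0 hp1 hk hθ).trans ?_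
    apply Real.exp_le_exp.2
    set x : ℝ := (k : ℝ) - p * n with hx
    have hkx : (k : ℝ) = x + p * n := by rw [hx]; ring
    rw [hkx]
    have h1 : (n : ℝ) * (p * (x / (2 * n) + (x / (2 * n)) ^ 2)) - x / (2 * n) * (x + p * n) =
        p * (x ^ 2 / (4 * n)) - 2 * (x ^ 2 / (4 * n)) := by
      field_simp
      ring
    rw [h1]
    have h2 : 0 ≤ x ^ 2 / (4 * n) := by positivity
    nlinarith
  · unfold bn
    rw [Nat.choose_eq_zero_of_lt (by omega)]
    simp only [Nat.cast_zero, zero_mul]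
    positivity

end Pool.Agent.H52.GP174
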