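import Pool.Agent.H174.GP.StA

set_option autoImplicit false

namespace Pool.Agent.H52.GP174

open Finset Pool.Agent.H174.GP

theorem topP_ge (d : ℕ) (g : Fin d → ℕ) (i : Fin d) : d ≤ topP d g i := Nat.le_add_right _ _

theorem topP_anti (d : ℕ) (g : Fin d → ℕ) : Antitone (topP d g) := by
  intro i j hij
  unfold topP
  have h : (Finset.univ.filter (fun l : Fin d => j ≤ l)) ⊆
      Finset.univ.filter (fun l : Fin d => i ≤ l) := by
    intro l hl
    simp only [Finset.mem_filter, Finset.mem_univ, true_and] at hl ⊢
    exact hij.trans hl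
  have h2 := Finset.sum_le_sum_of_subset (f := g) h
  omega

theorem rest_le (d : ℕ) (h : Fin d → ℕ) (x : ℕ)
    (hx : x ∈ (∑ l : Fin d, Multiset.replicate (h l) ((l : ℕ) + 1))) : x ≤ d := by
  rw [Multiset.mem_sum] at hx
  obtain ⟨l, -, hl⟩ := hx
  have h1 := Multiset.eq_of_mem_replicate hl
  have h2 := l.2
  omega

theorem top_mem_ge (d : ℕ) (g : Fin d → ℕ) (x : ℕ)
    (hx : x ∈ (Finset.univ : Finset (Fin d)).val.map (topP d g)) : d ≤ x := by
  rw [Multiset.mem_map] at hx
  obtain ⟨i, -, rfl⟩ := hx
  exact topP_ge d g i

theorem top_card (d : ℕ) (g : Fin d → ℕ) :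
    Multiset.card ((Finset.univ : Finset (Fin d)).val.map (topP d g)) = d := by
  rw [Multiset.card_map, Finset.card_val, Finset.card_univ, Fintype.card_fin]

/-- at least `d` parts are at least `d` -/
theorem count_ge (d : ℕ) (g h : Fin d → ℕ) : d ≤ (toP d g h).countP (fun y => d ≤ y) := by
  unfold toP
  rw [Multiset.countP_add]
  have h1 : ((Finset.univ : Finset (Fin d)).val.map (topP d g)).countP (fun y => d ≤ y) = d := by
    rw [Multiset.countP_eq_card.2 (fun x hx => top_mem_ge d g x hx), top_card]
  omega

/-- at most `d` parts are larger than `d` -/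
theorem count_le (d : ℕ) (g h : Fin d → ℕ) (r : ℕ) (hr : d < r) :
    (toP d g h).countP (fun y => r ≤ y) ≤ d := by
  unfold toP
  rw [Multiset.countP_add]
  have h1 : ((Finset.univ : Finset (Fin d)).val.map (topP d g)).countP (fun y => r ≤ y) ≤ d := by
    have h2 := Multiset.countP_le_card (fun y => r ≤ y)
      ((Finset.univ : Finset (Fin d)).val.map (topP d g))
    rw [top_card] at h2
    exact h2
  have h3 : (∑ l : Fin d, Multiset.replicate (h l) ((l : ℕ) + 1)).countP (fun y => r ≤ y) = 0 := by
    rw [Multiset.countP_eq_zero]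
    intro x hx
    have := rest_le d h x hx
    omega
  omega

theorem durfee_le (d d' : ℕ) (g h : Fin d → ℕ) (g' h' : Fin d' → ℕ)
    (e : toP d g h = toP d' g' h') : d' ≤ d := by
  by_contra hlt
  have h1 := count_ge d' g' h'
  have h2 := count_le d g h d' (by omega)
  rw [e] at h2
  omega

theorem split (d : ℕ) (g : Fin d → ℕ) :
    (Finset.univ : Finset (Fin d)).val.map (topP d g) =
      ((Finset.univ : Finset (Fin d)).val.map (topP d g)).filter (fun y => d < y) +
      Multiset.replicate (d - Multiset.card
        (((Finset.univ : Finset (Fin d)).val.map (topP d g)).filter (fun y => d < y))) d := by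
  have h1 := Multiset.filter_add_not (fun y => d < y)
    ((Finset.univ : Finset (Fin d)).val.map (topP d g))
  have h2 : ((Finset.univ : Finset (Fin d)).val.map (topP d g)).filter (fun y => ¬ d < y) =
      Multiset.replicate (d - Multiset.card
        (((Finset.univ : Finset (Fin d)).val.map (topP d g)).filter (fun y => d < y))) d := by
    rw [Multiset.eq_replicate]
    refine ⟨?_, fun b hb => ?_⟩
    · have h3 := congrArg Multiset.card h1
      rw [Multiset.card_add, top_card] at h3
      omega
    · rw [Multiset.mem_filter] at hb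
      have h4 := top_mem_ge d g b hb.1
      omega
  rw [h2] at h1
  exact h1.symm

theorem filter_toP (d : ℕ) (g h : Fin d → ℕ) :
    (toP d g h).filter (fun y => d < y) =
      ((Finset.univ : Finset (Fin d)).val.map (topP d g)).filter (fun y => d < y) := by
  unfold toP
  rw [Multiset.filter_add]
  have h3 : (∑ l : Fin d, Multiset.replicate (h l) ((l : ℕ) + 1)).filter (fun y => d < y) = 0 := by
    rw [Multiset.filter_eq_nil]
    intro x hx
    have := rest_le d h x hx
    omega
  rw [h3, add_zero]

theorem top_eq (d : ℕ) (g h g' h' : Fin d → ℕ) (e : toP d g h = toP d g' h') :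
    (Finset.univ : Finset (Fin d)).val.map (topP d g) =
      (Finset.univ : Finset (Fin d)).val.map (topP d g') := by
  rw [split d g, split d g', ← filter_toP d g h, ← filter_toP d g' h', e]

theorem fun_eq (d : ℕ) (f f' : Fin d → ℕ) (hf : Antitone f) (hf' : Antitone f')
    (e : (Finset.univ : Finset (Fin d)).val.map f = (Finset.univ : Finset (Fin d)).val.map f') :
    f = f' := by
  rw [Fin.univ_val_map, Fin.univ_val_map, Multiset.coe_eq_coe] at e
  have h1 : (List.ofFn f).Pairwise (fun a b => b ≤ a) := by
    rw [List.pairwise_ofFn]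
    intro i j hij
    exact hf hij.le
  have h2 : (List.ofFn f').Pairwise (fun a b => b ≤ a) := by
    rw [List.pairwise_ofFn]
    intro i j hij
    exact hf' hij.le
  have h3 : List.ofFn f = List.ofFn f' :=
    List.Perm.eq_of_pairwise (le := fun a b => b ≤ a) (fun a b _ _ hab hba => le_antisymm hba hab) h1 h2 e
  exact List.ofFn_injective h3

theorem topP_split (d : ℕ) (g : Fin d → ℕ) (i : Fin d) :
    topP d g i = g i + (d + ∑ l ∈ Finset.univ.filter (fun l : Fin d => i < l), g l) := by
  unfold topP
  have h : (Finset.univ.filter (fun l : Fin d => i ≤ l)) =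
      insert i (Finset.univ.filter (fun l : Fin d => i < l)) := by
    ext l
    simp only [Finset.mem_filter, Finset.mem_univ, true_and, Finset.mem_insert]
    constructor
    · intro hl
      rcases eq_or_lt_of_le hl with h1 | h1
      · exact Or.inl h1.symm
      · exact Or.inr h1
    · rintro (h1 | h1)
      · exact h1.ge
      · exact h1.le
  rw [h, Finset.sum_insert (by simp)]
  omega

theorem next_sum (d : ℕ) (g : Fin d → ℕ) (i : Fin d) :
    (d + ∑ l ∈ Finset.univ.filter (fun l : Fin d => i < l), g l) =
      if h : (i : ℕ) + 1 < d then topP d g ⟨i + 1, h⟩ else d := by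
  split_ifs with h
  · unfold topP
    congr 1
  · have : (Finset.univ.filter (fun l : Fin d => i < l)) = ∅ := by
      ext l
      simp only [Finset.mem_filter, Finset.mem_univ, true_and, Finset.notMem_empty, iff_false,
        not_lt]
      rw [Fin.le_def]
      have := l.2
      omega
    rw [this, Finset.sum_empty, add_zero]

theorem g_eq (d : ℕ) (g g' : Fin d → ℕ) (e : topP d g = topP d g') : g = g' := by
  funext i
  have h1 := topP_split d g i
  have h2 := topP_split d g' i
  rw [next_sum] at h1 h2
  rw [← e] at h2
  omega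

theorem h_eq (d : ℕ) (h h' : Fin d → ℕ)
    (e : (∑ l : Fin d, Multiset.replicate (h l) ((l : ℕ) + 1)) =
      ∑ l : Fin d, Multiset.replicate (h' l) ((l : ℕ) + 1)) : h = h' := by
  have key : ∀ (k : Fin d → ℕ) (i : Fin d),
      (∑ l : Fin d, Multiset.replicate (k l) ((l : ℕ) + 1)).count ((i : ℕ) + 1) = k i := by
    intro k i
    rw [Multiset.count_sum', Finset.sum_eq_single i]
    · rw [Multiset.count_replicate_self]
    · intro l _ hl
      rw [Multiset.count_replicate, if_neg]
      intro h1
      apply hl
      apply Fin.ext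
      omega
    · intro h1
      exact absurd (Finset.mem_univ i) h1
  funext i
  rw [← key h i, ← key h' i, e]

theorem gp_topinj : Pool.Agent.H174.GP.S_toPinj := by
  intro d d' g h g' h' e
  have hd : d = d' := le_antisymm (durfee_le d' d g' h' g h e.symm) (durfee_le d d' g h g' h' e)
  subst hd
  have e1 := top_eq d g h g' h' e
  have e2 := fun_eq d _ _ (topP_anti d g) (topP_anti d g') e1
  have e3 := g_eq d g g' e2
  have e4 : h = h' := by
    apply h_eq
    unfold toP at e
    rw [e1] at e
    exact add_left_cancel e
  rw [e3, e4]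

end Pool.Agent.H52.GP174
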